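import Pool.Agent.Helper83.RB.St

set_option autoImplicit false

/-! Module GEN of project RB (MP_97dcad_al). -/

namespace Pool.Agent.Helper14.RB

open Pool.Agent.Helper83.RB

/-- A subgroup of a finite `p`-group of order `≤ p ^ n` is generated by `n` elements. -/
theorem gen_of_card {p : ℕ} [Fact p.Prime] {Q : Type} [Group Q] [Finite Q] (hQ : IsPGroup p Q)
    (n : ℕ) (hn : Nat.card Q ≤ p ^ n) (H : Subgroup Q) :
    ∃ g : Fin n → Q, Subgroup.closure (Set.range g) = H := by
  have hp : 1 < p := (Fact.out : p.Prime).one_lt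
  have key : ∀ j : ℕ, ∃ g : Fin j → Q, Subgroup.closure (Set.range g) ≤ H ∧
      (Subgroup.closure (Set.range g) = H ∨ p ^ j ≤ Nat.card (Subgroup.closure (Set.range g))) := by
    intro j
    induction j with
    | zero =>
      refine ⟨Fin.elim0, ?_, Or.inr ?_⟩
      · rw [Subgroup.closure_le]
        rintro _ ⟨i, _⟩
        exact i.elim0
      · rw [pow_zero]
        exact Nat.card_pos
    | succ j ih =>
      obtain ⟨g, hg, h | h⟩ := ih
      · have e : Subgroup.closure (Set.range (Fin.cons 1 g : Fin (j + 1) → Q)) = H := by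
          rw [Fin.range_cons, Set.insert_eq, Subgroup.closure_union, h]
          simp
        exact ⟨Fin.cons 1 g, e.le, Or.inl e⟩
      · by_cases h1 : Subgroup.closure (Set.range g) = H
        · have e : Subgroup.closure (Set.range (Fin.cons 1 g : Fin (j + 1) → Q)) = H := by
            rw [Fin.range_cons, Set.insert_eq, Subgroup.closure_union, h1]
            simp
          exact ⟨Fin.cons 1 g, e.le, Or.inl e⟩
        · obtain ⟨x, hxH, hx⟩ := SetLike.exists_of_lt (lt_of_le_of_ne hg h1)
          have hle : Subgroup.closure (Set.range g) ≤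
              Subgroup.closure (Set.range (Fin.cons x g : Fin (j + 1) → Q)) := by
            apply Subgroup.closure_mono
            rw [Fin.range_cons]
            exact Set.subset_insert _ _
          have hxm : x ∈ Subgroup.closure (Set.range (Fin.cons x g : Fin (j + 1) → Q)) := by
            apply Subgroup.subset_closure
            rw [Fin.range_cons]
            exact Set.mem_insert _ _
          refine ⟨Fin.cons x g, ?_, Or.inr ?_⟩
          · rw [Subgroup.closure_le, Fin.range_cons, Set.insert_subset_iff]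
            refine ⟨hxH, ?_⟩
            exact le_trans Subgroup.subset_closure hg
          · obtain ⟨a, ha⟩ := IsPGroup.iff_card.mp
              (hQ.to_subgroup (Subgroup.closure (Set.range g)))
            obtain ⟨b, hb⟩ := IsPGroup.iff_card.mp
              (hQ.to_subgroup (Subgroup.closure (Set.range (Fin.cons x g : Fin (j + 1) → Q))))
            have hlt : Nat.card (Subgroup.closure (Set.range g)) <
                Nat.card (Subgroup.closure (Set.range (Fin.cons x g : Fin (j + 1) → Q))) := by
              refine lt_of_le_of_ne (Subgroup.card_le_of_le hle) ?_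
              intro he
              have := Subgroup.eq_of_le_of_card_ge hle he.ge
              rw [this] at hx
              exact hx hxm
            rw [ha] at h hlt
            rw [hb] at hlt ⊢
            have h2 : j ≤ a := (Nat.pow_le_pow_iff_right hp).mp h
            have h3 : a < b := (Nat.pow_lt_pow_iff_right hp).mp hlt
            exact Nat.pow_le_pow_right hp.le (by omega)
  obtain ⟨g, hg, h | h⟩ := key n
  · exact ⟨g, h⟩
  · refine ⟨g, ?_⟩
    have h1 : Subgroup.closure (Set.range g) = ⊤ := by
      apply Subgroup.eq_top_of_card_eq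
      exact le_antisymm (Subgroup.card_le_card_group _) (hn.trans h)
    rw [h1] at hg ⊢
    exact (top_le_iff.mp hg).symm

/-- In a finite nilpotent group `K ⊔ commutator N = ⊤` implies `K = ⊤`. -/
theorem eq_top_of_sup_commutator {N : Type} [Group N] [Finite N] [Group.IsNilpotent N]
    (K : Subgroup N) (hK : K ⊔ commutator N = ⊤) : K = ⊤ := by
  by_contra hne
  obtain ⟨M, hM, hKM⟩ := (eq_top_or_exists_le_coatom K).resolve_left hne
  have : M.Normal := Subgroup.NormalizerCondition.normal_of_coatom M
    Group.normalizerCondition_of_isNilpotent hM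
  have : Nontrivial (N ⧸ M) := by
    rw [QuotientGroup.nontrivial_iff]
    exact hM.1
  have hlt : commutator (N ⧸ M) < ⊤ := Group.IsSolvable.commutator_lt_top_of_nontrivial (N ⧸ M)
  have hMM : M ≤ (commutator (N ⧸ M)).comap (QuotientGroup.mk' M) := by
    intro x hx
    rw [Subgroup.mem_comap]
    have : QuotientGroup.mk' M x = 1 := by
      rw [QuotientGroup.mk'_apply, QuotientGroup.eq_one_iff]
      exact hx
    rw [this]
    exact one_mem _
  have hcomm : commutator N ≤ (commutator (N ⧸ M)).comap (QuotientGroup.mk' M) := by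
    rw [← Subgroup.map_le_iff_le_comap, commutator_def, commutator_def, Subgroup.map_commutator]
    exact Subgroup.commutator_mono le_top le_top
  have hne2 : (commutator (N ⧸ M)).comap (QuotientGroup.mk' M) ≠ ⊤ := by
    intro h
    apply hlt.ne
    rw [eq_top_iff]
    intro y _
    obtain ⟨x, rfl⟩ := QuotientGroup.mk'_surjective M y
    have : x ∈ (commutator (N ⧸ M)).comap (QuotientGroup.mk' M) := by
      rw [h]
      trivial
    exact this
  have heq : (commutator (N ⧸ M)).comap (QuotientGroup.mk' M) = M := by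
    rcases hMM.lt_or_eq with h | h
    · exact absurd (hM.2 _ h) hne2
    · exact h.symm
  rw [heq] at hcomm
  have : K ⊔ commutator N ≤ M := sup_le hKM hcomm
  rw [hK] at this
  exact hM.1 (top_le_iff.mp this)

theorem hGEN (hORD : StORD) : StGEN := by
  intro p m e _ G _ _ hexp hf N _ hlow
  obtain ⟨f, hf⟩ := hf
  have hPG : IsPGroup p G := fun g => ⟨1, by rw [pow_one]; exact hexp g⟩
  -- the quotient
  have hcardQ : Nat.card (G ⧸ ⁅N, N⁆) ≤ p ^ ((m + 1) ^ (e + 1)) := by
    refine hORD p m e (G ⧸ ⁅N, N⁆) ?_ (fun i => QuotientGroup.mk' ⁅N, N⁆ (f i)) ?_ ?_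
    · intro g
      obtain ⟨x, rfl⟩ := QuotientGroup.mk'_surjective ⁅N, N⁆ g
      rw [← map_pow, hexp, map_one]
    · have h1 : Set.range (fun i => QuotientGroup.mk' ⁅N, N⁆ (f i)) =
          (QuotientGroup.mk' ⁅N, N⁆) '' (Set.range f) := by
        rw [← Set.range_comp]
        rfl
      rw [h1, ← MonoidHom.map_closure, hf, ← MonoidHom.range_eq_map,
        MonoidHom.range_eq_top]
      exact QuotientGroup.mk'_surjective _
    · have h1 : (⊤ : Subgroup G).map (QuotientGroup.mk' ⁅N, N⁆) = ⊤ := by
        rw [← MonoidHom.range_eq_map, MonoidHom.range_eq_top]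
        exact QuotientGroup.mk'_surjective _
      rw [← h1, ← Subgroup.map_lowerCentralSeries, Subgroup.map_eq_bot_iff,
        QuotientGroup.ker_mk']
      exact hlow
  have hPQ : IsPGroup p (G ⧸ ⁅N, N⁆) := hPG.to_quotient _
  obtain ⟨g, hg⟩ := gen_of_card hPQ _ hcardQ (N.map (QuotientGroup.mk' ⁅N, N⁆))
  have hlift : ∀ i, ∃ x : N, QuotientGroup.mk' ⁅N, N⁆ (x : G) = g i := by
    intro i
    have : g i ∈ N.map (QuotientGroup.mk' ⁅N, N⁆) := by
      rw [← hg]
      exact Subgroup.subset_closure ⟨i, rfl⟩
    obtain ⟨x, hx, hxe⟩ := this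
    exact ⟨⟨x, hx⟩, hxe⟩
  choose f' hf' using hlift
  refine ⟨f', ?_⟩
  have : Group.IsNilpotent N := (hPG.to_subgroup N).isNilpotent
  apply eq_top_of_sup_commutator
  rw [eq_top_iff]
  intro x _
  have hx1 : QuotientGroup.mk' ⁅N, N⁆ (x : G) ∈
      (Subgroup.closure (Set.range f')).map
        ((QuotientGroup.mk' ⁅N, N⁆).comp N.subtype) := by
    rw [MonoidHom.map_closure]
    have h1 : ((QuotientGroup.mk' ⁅N, N⁆).comp N.subtype) '' (Set.range f') = Set.range g := by
      rw [← Set.range_comp]
      congr 1
      funext i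
      exact hf' i
    rw [h1, hg]
    exact ⟨x, x.2, rfl⟩
  obtain ⟨k, hk, hkx⟩ := hx1
  have hkx' : QuotientGroup.mk' ⁅N, N⁆ (k : G) = QuotientGroup.mk' ⁅N, N⁆ (x : G) := hkx
  have hc : ((k : G)⁻¹ * (x : G)) ∈ ⁅N, N⁆ := by
    rw [QuotientGroup.mk'_apply, QuotientGroup.mk'_apply, QuotientGroup.eq] at hkx'
    exact hkx'
  rw [← Subgroup.map_subtype_commutator] at hc
  obtain ⟨c, hc, hce⟩ := hc
  have hxe : x = k * c := by
    apply Subtype.ext
    rw [Subgroup.coe_mul]
    have : (c : G) = (k : G)⁻¹ * (x : G) := hce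
    rw [this]
    group
  rw [hxe]
  exact mul_mem (Subgroup.mem_sup_left hk) (Subgroup.mem_sup_right hc)

end Pool.Agent.Helper14.RB
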